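import Pool.Agent.Results.MP_c091ab_al.NoGap
import Pool.Agent.Results.MP_c091ab_al.BassInfinite

/-!
The earlier hand-in (Q1 word for word), derived from each of the two stronger statements.
-/

universe u

open CategoryTheory IsLocalRing

namespace Pool.Agent.Lib.MP_c091ab_al.Variants.BassRegular

/-- The perfect closure `R^∞` (the direct limit of `R → R → ⋯` along Frobenius), as an
`R`-module through the canonical map from the first copy of `R`. -/
noncomputable def perfClosureModule (R : Type u) [CommRing R] (p : ℕ) [Fact p.Prime]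
    [CharP R p] : ModuleCat.{u} R :=
  (ModuleCat.restrictScalars (PerfectClosure.of R p)).obj
    (ModuleCat.of (PerfectClosure R p) (PerfectClosure R p))

theorem from_noGap (p : ℕ) [Fact p.Prime] (R : Type u) [CommRing R] [IsLocalRing R]
    [IsNoetherianRing R] [CharP R p] (d : ℕ) (hd : ringKrullDim R = d) (i : ℕ) (hi : d < i)
    (h : ∀ ξ : Abelian.Ext.{u} (ModuleCat.of R (R ⧸ maximalIdeal R)) (perfClosureModule R p) i,
      ξ = 0) :
    IsRegularLocalRing R := by
  have hp : p.Prime := Fact.out
  let k := ResidueField R
  have : CharP k p := (CharP.charP_iff_prime_eq_zero hp).mpr (by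
    rw [← map_natCast (residue R), CharP.cast_eq_zero, map_zero])
  let φ : PerfectClosure R p →+* PerfectClosure k p :=
    PerfectClosure.lift R p (PerfectClosure k p) ((PerfectClosure.of k p).comp (residue R))
  have hφ : φ.comp (PerfectClosure.of R p) = (PerfectClosure.of k p).comp (residue R) :=
    (PerfectClosure.lift R p (PerfectClosure k p)).left_inv _
  refine (Pool.Agent.Results.MP_c091ab_al.NoGap.result p R d hd
    (ModuleCat.of (PerfectClosure R p) (PerfectClosure R p)) ?_ i h).resolve_right
    (fun h' => by omega)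
  intro htop
  let _ : Algebra R (PerfectClosure R p) := (PerfectClosure.of R p).toAlgebra
  have htop' : maximalIdeal R • (⊤ : Submodule R (PerfectClosure R p)) = ⊤ := htop
  have h1 : ∀ s ∈ maximalIdeal R • (⊤ : Submodule R (PerfectClosure R p)), φ s = 0 := by
    intro s hs
    refine Submodule.smul_induction_on (p := fun s : PerfectClosure R p => φ s = 0) hs ?_ ?_
    · intro a ha t _
      change φ (PerfectClosure.of R p a * t) = 0
      have : φ (PerfectClosure.of R p a) = 0 := by
        change φ.comp (PerfectClosure.of R p) a = 0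
        rw [hφ, RingHom.comp_apply, (residue_eq_zero_iff a).mpr ha, map_zero]
      rw [map_mul, this, zero_mul]
    · intro x y hx hy
      rw [map_add, hx, hy, add_zero]
  have h2 : φ 1 = 0 := h1 1 (by rw [htop']; exact Submodule.mem_top)
  rw [map_one] at h2
  exact one_ne_zero h2

theorem from_bassInfinite (p : ℕ) [Fact p.Prime] (R : Type u) [CommRing R] [IsLocalRing R]
    [IsNoetherianRing R] [CharP R p] (d : ℕ) (hd : ringKrullDim R = d) (i : ℕ) (hi : d < i)
    (h : ∀ ξ : Abelian.Ext.{u} (ModuleCat.of R (R ⧸ maximalIdeal R)) (perfClosureModule R p) i,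
      ξ = 0) :
    IsRegularLocalRing R := by
  have : Subsingleton
      (Abelian.Ext.{u} (ModuleCat.of R (R ⧸ maximalIdeal R)) (perfClosureModule R p) i) :=
    ⟨fun a b => by rw [h a, h b]⟩
  rcases Pool.Agent.Results.MP_c091ab_al.BassInfinite.result p R d hd i hi.le
    (Module.Finite.of_finite (M := Abelian.Ext.{u} (ModuleCat.of R (R ⧸ maximalIdeal R))
      (perfClosureModule R p) i)) with h1 | ⟨-, -, ξ, hξ⟩
  · exact h1.1
  · exact absurd (h ξ) hξ

end Pool.Agent.Lib.MP_c091ab_al.Variants.BassRegular
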